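import Pool.Agent.TH826.UH.Pair
set_option autoImplicit false

/-!
Estimates for the regulator integral of two functions on a circle.
-/

namespace Pool.Agent.TH826.UB

open MeasureTheory Set

open Pool.Agent.TH826.MK (pairing circ vf One one_lin wd circ_sub_ne_zero norm_circ contDiff_circ
  hasDerivAt_circ circ_add_one)

open Pool.Agent.TH826.UH

open scoped Real

variable {G H H' : ℝ → ℂ}

theorem pr_comm : pr G H = -pr H G := by
  unfold pr
  rw [← intervalIntegral.integral_neg]
  refine intervalIntegral.integral_congr fun s _ => ?_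
  ring

theorem pr_div_left {G' : ℝ → ℂ} (hG : NZ G) (hG' : NZ G') (hH : NZ H) :
    pr (fun s => G s / G' s) H = pr G H - pr G' H := by
  rw [pr_comm, pr_div hH hG hG', pr_comm (G := H), pr_comm (G := H)]
  ring

theorem pr_inv (hG : NZ G) (hH : NZ H) : pr G (fun s => (H s)⁻¹) = -pr G H := by
  have n1 : NZ fun _ : ℝ => (1 : ℂ) := ⟨contDiff_const, fun _ => one_ne_zero⟩
  have h := pr_div hG n1 hH
  rw [pr_one, zero_sub] at h
  rw [← h]
  congr 1
  funext s
  rw [one_div]

/-- the total change of the argument of `circ R - c` -/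
theorem wind_lin {R : ℝ} (hR : 0 < R) {c : ℂ} (hc : ‖c‖ ≠ R) :
    ∫ s in (0 : ℝ)..1, (deriv (fun s => circ R s - c) s / (circ R s - c)).im =
      2 * π * wd R c := by
  have n1 := nz_circ_sub hR hc
  have h1 := (one_lin hR hc).wind
  have h2 : ∫ s in (0 : ℝ)..1, (deriv (fun s => circ R s - c) s / (circ R s - c)) =
      2 * π * Complex.I * wd R c := by
    rw [intervalIntegral.integral_of_le zero_le_one, ← integral_Icc_eq_integral_Ioc]
    exact h1
  have h3 := Complex.imCLM.intervalIntegral_comp_comm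
    (n1.cont_ld.intervalIntegrable (μ := volume) 0 1)
  rw [h2] at h3
  have h4 : (∫ s in (0 : ℝ)..1, (deriv (fun s => circ R s - c) s / (circ R s - c)).im) =
      Complex.imCLM (2 * π * Complex.I * wd R c) := h3
  rw [h4]
  simp

/-- the regulator with a constant -/
theorem pr_lin_const {R : ℝ} (hR : 0 < R) {c : ℂ} (hc : ‖c‖ ≠ R) (μ : ℂ) :
    pr (fun s => circ R s - c) (fun _ => μ) = -(2 * π * (Real.log ‖μ‖ * wd R c)) := by
  unfold pr
  simp only [deriv_const, zero_div, Complex.zero_im, mul_zero, zero_sub]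
  rw [intervalIntegral.integral_neg, intervalIntegral.integral_const_mul, wind_lin hR hc]
  ring

/-- Logarithms of functions with values in a disc away from `0`. -/
theorem hasDerivAt_logd {Y : ℝ → ℂ} (hY : ContDiff ℝ 2 Y) {β : ℂ} (h : ∀ s, ‖Y s‖ < ‖β‖) (s : ℝ) :
    HasDerivAt (fun s => Complex.log (1 + Y s / β)) (deriv (fun s => β + Y s) s / (β + Y s)) s := by
  have hβ : β ≠ 0 := norm_pos_iff.1 ((norm_nonneg _).trans_lt (h 0))
  have hw : 1 + Y s / β ∈ Complex.slitPlane := by
    refine Complex.mem_slitPlane_iff.2 (Or.inl ?_)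
    have h1 : ‖Y s / β‖ < 1 := by
      rw [norm_div, div_lt_one (norm_pos_iff.2 hβ)]
      exact h s
    have h2 := Complex.abs_re_le_norm (Y s / β)
    have h3 := (abs_le.1 h2).1
    simp only [Complex.add_re, Complex.one_re]
    linarith
  have hYd : HasDerivAt Y (deriv Y s) s := (hY.differentiable (by norm_num) s).hasDerivAt
  have h1 : HasDerivAt (fun s => 1 + Y s / β) (deriv Y s / β) s :=
    (hYd.div_const β).const_add 1
  refine (h1.clog_real hw).congr_deriv ?_
  rw [(hYd.const_add β).deriv]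
  have h3 : 1 + Y s / β = (β + Y s) / β := by
    field_simp
  rw [h3]
  have h4 : β + Y s ≠ 0 := by
    intro h5
    have h6 : Y s = -β := by linear_combination h5
    have h7 := h s
    rw [h6, norm_neg] at h7
    exact lt_irrefl _ h7
  field_simp

theorem nz_add {Y : ℝ → ℂ} (hY : ContDiff ℝ 2 Y) {β : ℂ} (h : ∀ s, ‖Y s‖ < ‖β‖) :
    NZ fun s => β + Y s := by
  refine ⟨contDiff_const.add hY, fun s h5 => ?_⟩
  have h6 : Y s = -β := by linear_combination h5
  have h7 := h s
  rw [h6, norm_neg] at h7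
  exact lt_irrefl _ h7

theorem log_norm_add {Y β : ℂ} (h : ‖Y‖ < ‖β‖) :
    Real.log ‖β + Y‖ = Real.log ‖β‖ + (Complex.log (1 + Y / β)).re := by
  have hβ : β ≠ 0 := norm_pos_iff.1 ((norm_nonneg _).trans_lt h)
  have h4 : β + Y ≠ 0 := by
    intro h5
    have h6 : Y = -β := by linear_combination h5
    rw [h6, norm_neg] at h
    exact lt_irrefl _ h
  have h5 : 1 + Y / β ≠ 0 := by
    have h3 : 1 + Y / β = (β + Y) / β := by field_simp
    rw [h3]
    exact div_ne_zero h4 hβ
  rw [Complex.log_re, ← Real.log_mul (norm_ne_zero_iff.2 hβ) (norm_ne_zero_iff.2 h5), ← norm_mul]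
  congr 2
  field_simp

/-- A function without winding number: only the mean of its logarithm contributes. -/
theorem pr_circ_disc_neg {R : ℝ} (hR : 0 < R) {Y : ℝ → ℂ} (hY : ContDiff ℝ 2 Y)
    (hper : ∀ s, Y (s + 1) = Y s) {β : ℂ} (h : ∀ s, ‖Y s‖ < ‖β‖)
    (h1 : ∀ s, 1 ≤ ‖β + Y s‖) : pr (circ R) (fun s => β + Y s) ≤ 0 := by
  have nX := nz_add hY h
  have hz := nz_circ hR
  have hwind : ∫ s in (0 : ℝ)..1, (deriv (fun s => β + Y s) s / (β + Y s)) = 0 := by
    rw [intervalIntegral.integral_eq_sub_of_hasDerivAt (fun s _ => hasDerivAt_logd hY h s)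
      (nX.cont_ld.intervalIntegrable _ _)]
    have h1 : Y 1 = Y 0 := by
      have := hper 0
      rwa [zero_add] at this
    simp only [h1, sub_self]
  have hwim : ∫ s in (0 : ℝ)..1, (deriv (fun s => β + Y s) s / (β + Y s)).im = 0 := by
    have h1 := Complex.imCLM.intervalIntegral_comp_comm
      (nX.cont_ld.intervalIntegrable (μ := volume) 0 1)
    rw [hwind, map_zero] at h1
    exact h1
  unfold pr
  simp only [ld_circ hR, norm_circ hR.le]
  have i1 : IntervalIntegrable (fun s => Real.log R *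
      (deriv (fun s => β + Y s) s / (β + Y s)).im) volume 0 1 :=
    (continuous_const.mul nX.cont_im).intervalIntegrable _ _
  have i2 : IntervalIntegrable (fun s => Real.log ‖β + Y s‖ * (2 * π)) volume 0 1 :=
    (nX.cont_log.mul continuous_const).intervalIntegrable _ _
  rw [intervalIntegral.integral_sub i1 i2,
    intervalIntegral.integral_const_mul, hwim, mul_zero, zero_sub, neg_nonpos]
  refine intervalIntegral.integral_nonneg zero_le_one fun s _ => ?_
  exact mul_nonneg (Real.log_nonneg (h1 s)) (by positivity)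

/-- Two functions without winding number. -/
theorem abs_pr_le {X Y : ℝ → ℂ} (hX : ContDiff ℝ 2 X) (hY : ContDiff ℝ 2 Y)
    (hXp : ∀ s, X (s + 1) = X s) (hYp : ∀ s, Y (s + 1) = Y s) {α β : ℂ}
    (hα : ∀ s, ‖X s‖ < ‖α‖) (hβ : ∀ s, ‖Y s‖ < ‖β‖) {A B : ℝ}
    (hA : ∀ s, ‖deriv (fun s => α + X s) s / (α + X s)‖ ≤ A)
    (hB : ∀ s, ‖Complex.log (1 + Y s / β)‖ ≤ B) :
    |pr (fun s => α + X s) (fun s => β + Y s)| ≤ A * B := by
  have nX := nz_add hX hα
  have nY := nz_add hY hβ
  set φ : ℝ → ℂ := fun s => Complex.log (1 + X s / α) with hφ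
  set ψ : ℝ → ℂ := fun s => Complex.log (1 + Y s / β) with hψ
  set φ' : ℝ → ℂ := fun s => deriv (fun s => α + X s) s / (α + X s) with hφ'
  set ψ' : ℝ → ℂ := fun s => deriv (fun s => β + Y s) s / (β + Y s) with hψ'
  have dφ : ∀ s, HasDerivAt φ (φ' s) s := hasDerivAt_logd hX hα
  have dψ : ∀ s, HasDerivAt ψ (ψ' s) s := hasDerivAt_logd hY hβ
  have cφ' : Continuous φ' := nX.cont_ld
  have cψ' : Continuous ψ' := nY.cont_ld
  have cφ : Continuous φ := continuous_iff_continuousAt.2 fun s => (dφ s).continuousAt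
  have cψ : Continuous ψ := continuous_iff_continuousAt.2 fun s => (dψ s).continuousAt
  have dre : ∀ {f f' : ℝ → ℂ}, (∀ s, HasDerivAt f (f' s) s) → ∀ s,
      HasDerivAt (fun s => (f s).re) (f' s).re s := fun h s =>
    (Complex.reCLM.hasFDerivAt.comp_hasDerivAt s (h s))
  have dim : ∀ {f f' : ℝ → ℂ}, (∀ s, HasDerivAt f (f' s) s) → ∀ s,
      HasDerivAt (fun s => (f s).im) (f' s).im s := fun h s =>
    (Complex.imCLM.hasFDerivAt.comp_hasDerivAt s (h s))
  set k : ℝ → ℝ := fun s => Real.log ‖α‖ * (ψ s).im - Real.log ‖β‖ * (φ s).im +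
    (φ s).re * (ψ s).im with hk
  set k' : ℝ → ℝ := fun s => Real.log ‖α‖ * (ψ' s).im - Real.log ‖β‖ * (φ' s).im +
    ((φ' s).re * (ψ s).im + (φ s).re * (ψ' s).im) with hk'
  have dk : ∀ s, HasDerivAt k (k' s) s := by
    intro s
    exact (((dim dψ s).const_mul _).sub ((dim dφ s).const_mul _)).add
      ((dre dφ s).mul (dim dψ s))
  have ck' : Continuous k' := by
    have := Complex.continuous_re
    have := Complex.continuous_im
    simp only [hk']
    fun_prop
  have hk0 : ∫ s in (0 : ℝ)..1, k' s = 0 := by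
    rw [intervalIntegral.integral_eq_sub_of_hasDerivAt (fun s _ => dk s)
      (ck'.intervalIntegrable _ _)]
    have h1 : X 1 = X 0 := by
      have := hXp 0
      rwa [zero_add] at this
    have h2 : Y 1 = Y 0 := by
      have := hYp 0
      rwa [zero_add] at this
    simp only [hk, hφ, hψ, h1, h2, sub_self]
  have e : pr (fun s => α + X s) (fun s => β + Y s) = -∫ s in (0 : ℝ)..1, (φ' s * ψ s).im := by
    have h1 : pr (fun s => α + X s) (fun s => β + Y s) =
        ∫ s in (0 : ℝ)..1, (k' s - (φ' s * ψ s).im) := by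
      unfold pr
      refine intervalIntegral.integral_congr fun s _ => ?_
      simp only
      rw [log_norm_add (hα s), log_norm_add (hβ s)]
      have e1 : deriv (fun s => α + X s) s / (α + X s) = φ' s := rfl
      have e2 : deriv (fun s => β + Y s) s / (β + Y s) = ψ' s := rfl
      have e3 : Complex.log (1 + X s / α) = φ s := rfl
      have e4 : Complex.log (1 + Y s / β) = ψ s := rfl
      rw [e1, e2, e3, e4]
      simp only [hk', Complex.mul_im]
      ring
    have h2 : IntervalIntegrable (fun s => (φ' s * ψ s).im) volume 0 1 :=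
      (Complex.continuous_im.comp (cφ'.mul cψ)).intervalIntegrable _ _
    rw [h1, intervalIntegral.integral_sub (ck'.intervalIntegrable _ _) h2, hk0, zero_sub]
  rw [e, abs_neg, ← Real.norm_eq_abs]
  have h1 : ∀ s ∈ Set.uIoc (0 : ℝ) 1, ‖(φ' s * ψ s).im‖ ≤ A * B := by
    intro s _
    refine (Complex.abs_im_le_norm _).trans ?_
    rw [norm_mul]
    exact mul_le_mul (hA s) (hB s) (norm_nonneg _) ((norm_nonneg _).trans (hA s))
  have h2 := intervalIntegral.norm_integral_le_of_norm_le_const h1
  simpa using h2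

end Pool.Agent.TH826.UB
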