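import Pool.Agent.TH826.UH.Sep
import Pool.Agent.TH826.UB.Pair
set_option autoImplicit false

/-!
The curve `μ ∏ (x - α_i) ∏ (y - β_j) = 1` over the circle `|x - α_k| = 1/2`.
-/

namespace Pool.Agent.TH826.UB

open Polynomial Metric

open Pool.Agent.TH826.MK (circ norm_circ contDiff_circ circ_add_one hasDerivAt_circ wd)

open Pool.Agent.TH826.UH

theorem nat_mul_pow_le (m : ℕ) : (m : ℝ) * (2 / 3) ^ m ≤ 1 := by
  have h : ∀ m : ℕ, (m : ℝ) + 2 ≤ (3 / 2) ^ (m + 2) := by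
    intro m
    induction m with
    | zero => norm_num
    | succ m ih =>
      rw [show m + 1 + 2 = (m + 2) + 1 from rfl, pow_succ]
      push_cast
      have : (0 : ℝ) ≤ m := Nat.cast_nonneg m
      nlinarith
  have h2 : (m : ℝ) ≤ (3 / 2) ^ m := by
    rcases m with _ | _ | m
    · norm_num
    · norm_num
    · have := h m
      push_cast
      linarith
  have h3 : (m : ℝ) * (2 / 3) ^ m ≤ (3 / 2) ^ m * (2 / 3) ^ m :=
    mul_le_mul_of_nonneg_right h2 (by positivity)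
  rw [← mul_pow] at h3
  norm_num at h3
  exact h3

variable {m n : ℕ} {α : Fin (m + 1) → ℂ} {β : Fin (n + 1) → ℂ} {μ : ℂ}

/-- `x - α_i` on the circle around `α_k` -/
noncomputable def ff (α : Fin (m + 1) → ℂ) (k i : Fin (m + 1)) (s : ℝ) : ℂ :=
  circ (1 / 2) s - (α i - α k)

/-- the value of `∏ (y - β_j)` -/
noncomputable def ww (μ : ℂ) (α : Fin (m + 1) → ℂ) (k : Fin (m + 1)) (s : ℝ) : ℂ :=
  (μ * ∏ i, ff α k i s)⁻¹

theorem norm_ff_self (k : Fin (m + 1)) (s : ℝ) : ‖ff α k k s‖ = 1 / 2 := by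
  unfold ff
  rw [sub_self, sub_zero, norm_circ (by norm_num)]

theorem norm_ff_ge (hα : ∀ i j, i ≠ j → 2 ≤ ‖α i - α j‖) {k i : Fin (m + 1)} (h : i ≠ k) (s : ℝ) :
    3 / 2 ≤ ‖ff α k i s‖ := by
  have h1 := hα i k h
  have h2 : ‖α i - α k‖ ≤ ‖circ (1 / 2) s‖ + ‖ff α k i s‖ := by
    have : α i - α k = circ (1 / 2) s - ff α k i s := by
      unfold ff
      ring
    rw [this]
    exact norm_sub_le _ _
  rw [norm_circ (by norm_num)] at h2
  linarith

theorem norm_sub_ne_half (hα : ∀ i j, i ≠ j → 2 ≤ ‖α i - α j‖) (k i : Fin (m + 1)) :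
    ‖α i - α k‖ ≠ 1 / 2 := by
  by_cases h : i = k
  · rw [h, sub_self, norm_zero]
    norm_num
  · have := hα i k h
    intro h2
    rw [h2] at this
    norm_num at this

theorem wd_sub (hα : ∀ i j, i ≠ j → 2 ≤ ‖α i - α j‖) (k i : Fin (m + 1)) :
    wd (1 / 2) (α i - α k) = if i = k then 1 else 0 := by
  unfold wd
  by_cases h : i = k
  · rw [if_pos h, if_pos]
    rw [h, sub_self, norm_zero]
    norm_num
  · rw [if_neg h, if_neg]
    have := hα i k h
    rw [not_lt]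
    linarith

theorem nz_ff (hα : ∀ i j, i ≠ j → 2 ≤ ‖α i - α j‖) (k i : Fin (m + 1)) : NZ (ff α k i) :=
  nz_circ_sub (by norm_num) (norm_sub_ne_half hα k i)

theorem norm_prod_ge (hα : ∀ i j, i ≠ j → 2 ≤ ‖α i - α j‖) (k : Fin (m + 1)) (s : ℝ) :
    1 / 2 * (3 / 2) ^ m ≤ ‖∏ i, ff α k i s‖ := by
  classical
  rw [norm_prod, ← Finset.mul_prod_erase _ _ (Finset.mem_univ k), norm_ff_self]
  refine mul_le_mul_of_nonneg_left ?_ (by norm_num)
  calc (3 / 2 : ℝ) ^ m = ∏ _i ∈ Finset.univ.erase k, (3 / 2 : ℝ) := by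
        rw [Finset.prod_const, Finset.card_erase_of_mem (Finset.mem_univ k), Finset.card_univ,
          Fintype.card_fin, Nat.add_sub_cancel]
    _ ≤ ∏ i ∈ Finset.univ.erase k, ‖ff α k i s‖ :=
        Finset.prod_le_prod (fun _ _ => by norm_num) fun i hi =>
          norm_ff_ge hα (Finset.ne_of_mem_erase hi) s

/-- the bound for `w` -/
noncomputable def om (m : ℕ) (μ : ℂ) : ℝ := 2 / ‖μ‖ * (2 / 3) ^ m

theorem om_nonneg (m : ℕ) (μ : ℂ) : 0 ≤ om m μ := by
  unfold om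
  positivity

theorem om_le (hm : 1 ≤ m) (hμ : 2 ≤ ‖μ‖) : om m μ ≤ 2 / 3 := by
  unfold om
  have h1 : 2 / ‖μ‖ ≤ 1 := (div_le_one (by linarith)).2 hμ
  have h2 : (2 / 3 : ℝ) ^ m ≤ 2 / 3 := by
    calc (2 / 3 : ℝ) ^ m ≤ (2 / 3) ^ 1 := pow_le_pow_of_le_one (by norm_num) (by norm_num) hm
      _ = 2 / 3 := pow_one _
  calc 2 / ‖μ‖ * (2 / 3) ^ m ≤ 1 * (2 / 3) := mul_le_mul h1 h2 (by positivity) zero_le_one
    _ = 2 / 3 := one_mul _

theorem norm_ww_le (hα : ∀ i j, i ≠ j → 2 ≤ ‖α i - α j‖) (hμ : 2 ≤ ‖μ‖) (k : Fin (m + 1))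
    (s : ℝ) : ‖ww μ α k s‖ ≤ om m μ := by
  have h1 := norm_prod_ge hα k s
  have h2 : ‖μ‖ * (1 / 2 * (3 / 2) ^ m) ≤ ‖μ * ∏ i, ff α k i s‖ := by
    rw [norm_mul]
    exact mul_le_mul_of_nonneg_left h1 (norm_nonneg _)
  have h3 : 0 < ‖μ‖ * (1 / 2 * (3 / 2 : ℝ) ^ m) := by positivity
  unfold ww om
  rw [norm_inv]
  refine (inv_anti₀ h3 h2).trans (le_of_eq ?_)
  rw [show (2 / 3 : ℝ) = (3 / 2)⁻¹ by norm_num, inv_pow]
  field_simp

theorem nz_den (hα : ∀ i j, i ≠ j → 2 ≤ ‖α i - α j‖) (hμ : 2 ≤ ‖μ‖) (k : Fin (m + 1)) :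
    NZ fun s => μ * ∏ i, ff α k i s := by
  have hμ0 : μ ≠ 0 := by
    rw [← norm_pos_iff]
    linarith
  have hc : NZ fun _ : ℝ => μ := ⟨contDiff_const, fun _ => hμ0⟩
  exact hc.mul (NZ.prod Finset.univ fun i => nz_ff hα k i)

theorem nz_ww (hα : ∀ i j, i ≠ j → 2 ≤ ‖α i - α j‖) (hμ : 2 ≤ ‖μ‖) (k : Fin (m + 1)) :
    NZ (ww μ α k) :=
  ⟨(nz_den hα hμ k).smooth.inv (nz_den hα hμ k).ne_zero,
    fun s => inv_ne_zero ((nz_den hα hμ k).ne_zero s)⟩

theorem ww_add_one (k : Fin (m + 1)) (s : ℝ) : ww μ α k (s + 1) = ww μ α k s := by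
  unfold ww ff
  rw [circ_add_one]

/-- The branches of `y` over the circle. -/
theorem exists_Y (hα : ∀ i j, i ≠ j → 2 ≤ ‖α i - α j‖) (hβ : ∀ i j, i ≠ j → 2 ≤ ‖β i - β j‖)
    (hm : 1 ≤ m) (hn : 1 ≤ n) (hμ : 2 ≤ ‖μ‖) (k : Fin (m + 1)) :
    ∃ Y : Fin (n + 1) → ℝ → ℂ, (∀ l, ContDiff ℝ 2 (Y l)) ∧ (∀ l s, Y l (s + 1) = Y l s) ∧
      (∀ l s, ∏ j, (Y l s - β j) = ww μ α k s) ∧
      (∀ j s, ∏ l, (β j - Y l s) = -ww μ α k s) ∧
      (∀ l s, ‖Y l s - β l‖ ≤ om m μ * (2 / 3) ^ n) := by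
  classical
  obtain ⟨η, H⟩ := sepd_fam (g := n) (b := β) (lam := 3) (t := 0)
    (F := C 0 + C 3 * ∏ i, (X - C (β i))) (by norm_num) rfl (ρ := 1) (B := 1) one_pos
    (fun i j hij => by linarith [hβ i j hij]) (by simp) (fun x hx => by
      calc (1 : ℝ) = ∏ _i : Fin (n + 1), (1 : ℝ) := by simp
        _ ≤ ∏ i, ‖x - β i‖ := Finset.prod_le_prod (fun _ _ => zero_le_one) fun i _ => hx i)
    (by simp; norm_num)
  obtain ⟨y, han, hdisc, hprod, -⟩ := H.exists_branches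
  have hlead := leadingCoeff_fam (g := n) (b := β) (lam := 3) (t := 0)
    (F := C 0 + C 3 * ∏ i, (X - C (β i))) (by norm_num) rfl
  have hnz := nz_ww hα hμ k
  have hu : ∀ s, 3 * ww μ α k s ∈ ball (0 : ℂ) (2 + η) := by
    intro s
    rw [mem_ball_zero_iff, norm_mul]
    have h1 := (norm_ww_le hα hμ k s).trans (om_le hm hμ)
    have h2 := H.eta
    have h3 : ‖(3 : ℂ)‖ = 3 := by simp
    rw [h3]
    linarith
  have hfac : ∀ s (z : ℂ), ∏ j, (z - β j) - ww μ α k s = ∏ l, (z - y l (3 * ww μ α k s)) := by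
    intro s z
    have h1 := congrArg (fun p => p.eval z) (hprod _ (hu s))
    rw [hlead] at h1
    simp only [eval_sub, eval_add, eval_mul, eval_C, eval_prod, eval_X, zero_add] at h1
    have h3 : (3 : ℂ) ≠ 0 := by norm_num
    refine mul_left_cancel₀ h3 ?_
    linear_combination h1
  have hval : ∀ l s, ∏ j, (y l (3 * ww μ α k s) - β j) = ww μ α k s := by
    intro l s
    have h1 := hfac s (y l (3 * ww μ α k s))
    have h2 : ∏ l', (y l (3 * ww μ α k s) - y l' (3 * ww μ α k s)) = 0 :=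
      Finset.prod_eq_zero (Finset.mem_univ l) (sub_self _)
    rw [h2] at h1
    exact sub_eq_zero.1 h1
  refine ⟨fun l s => y l (3 * ww μ α k s), fun l => ?_, fun l s => ?_, hval, fun j s => ?_,
    fun l s => ?_⟩
  · rw [contDiff_iff_contDiffAt]
    intro t
    exact ((han l _ (hu t)).contDiffAt.restrict_scalars ℝ).comp t
      (contDiff_const.mul hnz.smooth).contDiffAt
  · simp only [ww_add_one]
  · rw [← hfac s (β j), Finset.prod_eq_zero (Finset.mem_univ j) (sub_self _), zero_sub]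
  · set Yl : ℂ := y l (3 * ww μ α k s) with hYl
    set d : ℝ := ‖Yl - β l‖ with hd
    have h1 := hval l s
    rw [← hYl] at h1
    have h2 : d * ∏ j ∈ Finset.univ.erase l, ‖Yl - β j‖ ≤ om m μ := by
      have h3 := congrArg norm h1
      rw [norm_prod, ← Finset.mul_prod_erase _ _ (Finset.mem_univ l)] at h3
      rw [hd, h3]
      exact norm_ww_le hα hμ k s
    have hd1 : d < 1 := hdisc l _ (hu s)
    have hd0 : 0 ≤ d := norm_nonneg _
    have hfar : ∀ j ∈ Finset.univ.erase l, 2 - d ≤ ‖Yl - β j‖ := by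
      intro j hj
      have h3 := hβ j l (Finset.ne_of_mem_erase hj)
      have h4 : ‖β j - β l‖ ≤ ‖Yl - β l‖ + ‖Yl - β j‖ := by
        have : β j - β l = (Yl - β l) - (Yl - β j) := by ring
        rw [this]
        exact norm_sub_le _ _
      linarith
    have hpow : d * (2 - d) ^ n ≤ om m μ := by
      refine le_trans (mul_le_mul_of_nonneg_left ?_ hd0) h2
      calc (2 - d) ^ n = ∏ _j ∈ Finset.univ.erase l, (2 - d) := by
            rw [Finset.prod_const, Finset.card_erase_of_mem (Finset.mem_univ l), Finset.card_univ,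
              Fintype.card_fin, Nat.add_sub_cancel]
        _ ≤ _ := Finset.prod_le_prod (fun _ _ => by linarith) hfar
    have hom := om_le hm hμ
    have key : ∀ q : ℝ, 1 ≤ q → q ≤ 2 - d → d * q ^ n ≤ om m μ := by
      intro q hq0 hq
      exact (mul_le_mul_of_nonneg_left (pow_le_pow_left₀ (by linarith) hq n) hd0).trans hpow
    have s1 : d ≤ 2 / 3 := by
      have := key 1 le_rfl (by linarith)
      rw [one_pow, mul_one] at this
      linarith
    have s2 : d ≤ 1 / 2 := by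
      have h3 := key (4 / 3) (by norm_num) (by linarith)
      have h4 : (4 / 3 : ℝ) ≤ (4 / 3) ^ n := by
        calc (4 / 3 : ℝ) = (4 / 3) ^ 1 := (pow_one _).symm
          _ ≤ (4 / 3) ^ n := pow_le_pow_right₀ (by norm_num) hn
      have h5 : d * (4 / 3) ≤ d * (4 / 3) ^ n := mul_le_mul_of_nonneg_left h4 hd0
      linarith
    have h3 := key (3 / 2) (by norm_num) (by linarith)
    have h4 : (3 / 2 : ℝ) ^ n * (2 / 3) ^ n = 1 := by
      rw [← mul_pow]
      norm_num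
    calc d = d * (3 / 2) ^ n * (2 / 3) ^ n := by rw [mul_assoc, h4, mul_one]
      _ ≤ om m μ * (2 / 3) ^ n := mul_le_mul_of_nonneg_right h3 (by positivity)

/-- the regulator of `{x - α_i, w}` on the circle around `α_k` -/
theorem pr_ff_ww (hα : ∀ i j, i ≠ j → 2 ≤ ‖α i - α j‖) (hμ : 2 ≤ ‖μ‖) (k i : Fin (m + 1)) :
    pr (ff α k i) (ww μ α k) = 2 * Real.pi * ((if i = k then Real.log ‖μ‖ else 0) -
      Real.log ‖α i - α k‖ + if i = k then ∑ i', Real.log ‖α i - α i'‖ else 0) := by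
  classical
  have hμ0 : μ ≠ 0 := by
    rw [← norm_pos_iff]
    linarith
  have hc : NZ fun _ : ℝ => μ := ⟨contDiff_const, fun _ => hμ0⟩
  have h1 : pr (ff α k i) (ww μ α k) = -pr (ff α k i) (fun s => μ * ∏ i, ff α k i s) :=
    pr_inv (nz_ff hα k i) (nz_den hα hμ k)
  rw [h1, pr_mul (nz_ff hα k i) hc (NZ.prod Finset.univ fun i => nz_ff hα k i),
    pr_prod Finset.univ (nz_ff hα k i) (fun i => nz_ff hα k i)]
  have h2 : pr (ff α k i) (fun _ => μ) = -(2 * Real.pi * (Real.log ‖μ‖ *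
      wd (1 / 2) (α i - α k))) := pr_lin_const (by norm_num) (norm_sub_ne_half hα k i) μ
  have h3 : ∀ i', pr (ff α k i) (ff α k i') = 2 * Real.pi * (Real.log ‖α i - α i'‖ *
      (wd (1 / 2) (α i' - α k) - wd (1 / 2) (α i - α k))) := by
    intro i'
    have h4 := pr_lin (R := 1 / 2) (by norm_num) (norm_sub_ne_half hα k i)
      (norm_sub_ne_half hα k i')
    rw [show α i - α k - (α i' - α k) = α i - α i' by ring] at h4
    exact h4
  rw [h2]
  simp only [h3, wd_sub hα]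
  rw [← Finset.mul_sum]
  have h5 : ∑ i', Real.log ‖α i - α i'‖ * ((if i' = k then (1 : ℝ) else 0) -
      if i = k then 1 else 0) = Real.log ‖α i - α k‖ -
        if i = k then ∑ i', Real.log ‖α i - α i'‖ else 0 := by
    simp only [mul_sub, Finset.sum_sub_distrib]
    congr 1
    · simp
    · by_cases h : i = k
      · simp [h]
      · simp [h]
  rw [h5]
  by_cases h : i = k
  · simp only [if_pos h]
    ring
  · simp only [if_neg h]
    ring

end Pool.Agent.TH826.UB
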