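import Pool.Agent.TH826.MH.Smooth
set_option autoImplicit false

/-!
Smoothness of the hypersurfaces `λ ∏_k ∏_i (x_k - a_{k,i}) = 1` with explicit constants.
-/

namespace Pool.Agent.TH826.UB

open Polynomial

open Pool.Agent.TH826.MH

/-- If the mutual distances of the roots are at least `2`, then the polynomial has absolute value
at least `1` at its critical points. -/
theorem one_le_crit {m : ℕ} (β : Fin (m + 1) → ℂ) (hβ : ∀ i j, i ≠ j → 2 ≤ ‖β i - β j‖) (c : ℂ)
    (hc : (derivative (qq β)).eval c = 0) : 1 ≤ ‖(qq β).eval c‖ := by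
  classical
  have hval : (qq β).eval c = ∏ i, (c - β i) := by
    unfold qq
    rw [eval_prod]
    simp
  have hder : ∑ i, ∏ j ∈ Finset.univ.erase i, (c - β j) = 0 := by
    rw [← hc]
    unfold qq
    rw [derivative_prod_finset, eval_finset_sum]
    refine Finset.sum_congr rfl fun i _ => ?_
    rw [eval_mul, eval_prod]
    simp
  have hne : ∀ i, c - β i ≠ 0 := by
    intro i hi
    have h1 : ∑ i', ∏ j ∈ Finset.univ.erase i', (c - β j) =
        ∏ j ∈ Finset.univ.erase i, (c - β j) := by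
      refine Finset.sum_eq_single i (fun i' _ h => ?_) fun h => absurd (Finset.mem_univ i) h
      exact Finset.prod_eq_zero (Finset.mem_erase.2 ⟨h.symm, Finset.mem_univ i⟩) hi
    rw [h1] at hder
    obtain ⟨j, hj, hj0⟩ := Finset.prod_eq_zero_iff.1 hder
    have h2 := hβ i j (Finset.ne_of_mem_erase hj).symm
    have h3 : β i - β j = 0 := by linear_combination hj0 - hi
    rw [h3, norm_zero] at h2
    norm_num at h2
  rw [hval, norm_prod]
  obtain ⟨i0, -, hmin⟩ := Finset.exists_min_image Finset.univ (fun i => ‖c - β i‖)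
    ⟨0, Finset.mem_univ _⟩
  set δ : ℝ := ‖c - β i0‖ with hδ
  have hδ0 : 0 < δ := norm_pos_iff.2 (hne i0)
  rcases le_or_gt 1 δ with h1 | h1
  · calc (1 : ℝ) = ∏ _i : Fin (m + 1), (1 : ℝ) := by simp
      _ ≤ ∏ i, ‖c - β i‖ := Finset.prod_le_prod (fun _ _ => zero_le_one)
          fun i _ => h1.trans (hmin i (Finset.mem_univ i))
  · have hfar : ∀ i, i ≠ i0 → 2 - δ ≤ ‖c - β i‖ := by
      intro i hi
      have h2 := hβ i i0 hi
      have h3 : ‖β i - β i0‖ ≤ ‖c - β i0‖ + ‖c - β i‖ := by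
        have : β i - β i0 = (c - β i0) - (c - β i) := by ring
        rw [this]
        exact norm_sub_le _ _
      linarith
    have hinv : ∑ i, (c - β i)⁻¹ = 0 := by
      have hP : ∏ i, (c - β i) ≠ 0 := Finset.prod_ne_zero_iff.2 fun i _ => hne i
      have h2 : (∏ i, (c - β i)) * ∑ i, (c - β i)⁻¹ = 0 := by
        rw [← hder, Finset.mul_sum]
        refine Finset.sum_congr rfl fun i _ => ?_
        rw [← Finset.mul_prod_erase _ _ (Finset.mem_univ i)]
        have := hne i
        field_simp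
      exact (mul_eq_zero.1 h2).resolve_left hP
    have h2 : δ⁻¹ ≤ m * (2 - δ)⁻¹ := by
      rw [← Finset.add_sum_erase _ _ (Finset.mem_univ i0)] at hinv
      have h3 : (c - β i0)⁻¹ = -∑ i ∈ Finset.univ.erase i0, (c - β i)⁻¹ := by
        linear_combination hinv
      have h4 := congrArg norm h3
      rw [norm_inv, norm_neg, ← hδ] at h4
      rw [h4]
      refine (norm_sum_le _ _).trans ?_
      calc ∑ i ∈ Finset.univ.erase i0, ‖(c - β i)⁻¹‖ ≤
            ∑ _i ∈ Finset.univ.erase i0, (2 - δ)⁻¹ := by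
            refine Finset.sum_le_sum fun i hi => ?_
            rw [norm_inv]
            exact inv_anti₀ (by linarith) (hfar i (Finset.ne_of_mem_erase hi))
        _ = m * (2 - δ)⁻¹ := by
            rw [Finset.sum_const, Finset.card_erase_of_mem (Finset.mem_univ i0), Finset.card_univ,
              Fintype.card_fin, nsmul_eq_mul, Nat.add_sub_cancel]
    have h3 : 2 - δ ≤ m * δ := by
      have h4 : 0 < 2 - δ := by linarith
      have h5 := mul_le_mul_of_nonneg_right h2 (mul_pos hδ0 h4).le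
      have e1 : δ⁻¹ * (δ * (2 - δ)) = 2 - δ := by field_simp
      have e2 : m * (2 - δ)⁻¹ * (δ * (2 - δ)) = m * δ := by field_simp
      linarith
    have h4 : δ * (1 + m * (1 - δ)) ≤ ∏ i, ‖c - β i‖ := by
      rw [← Finset.mul_prod_erase _ _ (Finset.mem_univ i0), ← hδ]
      refine mul_le_mul_of_nonneg_left ?_ hδ0.le
      calc 1 + (m : ℝ) * (1 - δ) ≤ (1 + (1 - δ)) ^ m := one_add_mul_le_pow (by linarith) m
        _ = ∏ _i ∈ Finset.univ.erase i0, (2 - δ) := by
            rw [Finset.prod_const, Finset.card_erase_of_mem (Finset.mem_univ i0), Finset.card_univ,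
              Fintype.card_fin, Nat.add_sub_cancel]
            congr 1
            ring
        _ ≤ ∏ i ∈ Finset.univ.erase i0, ‖c - β i‖ :=
            Finset.prod_le_prod (fun _ _ => by linarith) fun i hi =>
              hfar i (Finset.ne_of_mem_erase hi)
    nlinarith

variable {K : Type*} [Field K] {n : ℕ} {r : Fin n → ℕ}

/-- smoothness -/
theorem smooth (hn : 0 < n) (σ : K →+* ℂ) (a : ∀ k, Fin (r k + 1) → K)
    (ha : ∀ k i j, i ≠ j → 2 ≤ ‖σ (a k i) - σ (a k j)‖) {lam : K} (hlam : 1 < ‖σ lam‖)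
    (x : Fin n → ℂ) (hx : MvPolynomial.eval₂ σ x (eqn lam a) = 0) :
    ∃ k, MvPolynomial.eval₂ σ x (MvPolynomial.pderiv k (eqn lam a)) ≠ 0 := by
  have hmap : ∀ k, (qq (a k)).map σ = qq fun i => σ (a k i) := by
    intro k
    unfold qq
    rw [Polynomial.map_prod]
    refine Finset.prod_congr rfl fun i _ => ?_
    rw [Polynomial.map_sub, map_X, map_C]
  have h1 : σ lam * ∏ k, (qq (a k)).eval₂ σ (x k) = 1 := by
    rw [eqn_eq lam a ⟨0, hn⟩, MvPolynomial.eval₂_sub, MvPolynomial.eval₂_mul,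
      MvPolynomial.eval₂_mul, MvPolynomial.eval₂_C, MvPolynomial.eval₂_one, eval_aeval,
      MvPolynomial.eval₂_prod] at hx
    rw [← Finset.mul_prod_erase _ _ (Finset.mem_univ (⟨0, hn⟩ : Fin n))]
    simp only [eval_aeval] at hx
    linear_combination hx
  by_contra hcon
  push Not at hcon
  have hcrit : ∀ k, (derivative (qq (a k))).eval₂ σ (x k) = 0 := by
    intro k
    have h2 := hcon k
    rw [pderiv_eqn, MvPolynomial.eval₂_mul, MvPolynomial.eval₂_mul, MvPolynomial.eval₂_C,
      eval_aeval, MvPolynomial.eval₂_prod] at h2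
    simp only [eval_aeval] at h2
    have h3 : σ lam ≠ 0 ∧ ∏ k, (qq (a k)).eval₂ σ (x k) ≠ 0 := by
      rw [← mul_ne_zero_iff, h1]
      exact one_ne_zero
    have h4 : ∏ l ∈ Finset.univ.erase k, (qq (a l)).eval₂ σ (x l) ≠ 0 :=
      Finset.prod_ne_zero_iff.2 fun l _ => (Finset.prod_ne_zero_iff.1 h3.2) l (Finset.mem_univ l)
    rcases mul_eq_zero.1 h2 with h5 | h5
    · exact absurd h5 h3.1
    · rcases mul_eq_zero.1 h5 with h6 | h6
      · exact h6
      · exact absurd h6 h4
  have hge : ∀ k, 1 ≤ ‖(qq (a k)).eval₂ σ (x k)‖ := by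
    intro k
    rw [← eval_map, hmap]
    refine one_le_crit _ (ha k) (x k) ?_
    rw [← hmap, derivative_map, eval_map]
    exact hcrit k
  have h5 : 1 ≤ ‖∏ k, (qq (a k)).eval₂ σ (x k)‖ := by
    rw [norm_prod]
    calc (1 : ℝ) = ∏ _k : Fin n, (1 : ℝ) := by simp
      _ ≤ _ := Finset.prod_le_prod (fun _ _ => zero_le_one) fun k _ => hge k
  have h6 := congrArg norm h1
  rw [norm_mul, norm_one] at h6
  nlinarith [norm_nonneg (σ lam)]

end Pool.Agent.TH826.UB
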