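import Pool.Agent.TH826.UB.Main
import Pool.Agent.TH826.UB.Crit
import Pool.Agent.TH826.MH.Tori
set_option autoImplicit false

/-!
The loops on the curve `λ ∏ (x_0 - a_{0,i}) ∏ (x_1 - a_{1,j}) = 1` and the regulator matrix.
-/

namespace Pool.Agent.TH826.UB

open Pool.Agent.TH826.MK (Torus symb circ norm_circ contDiff_circ circ_add_one hasDerivAt_circ wd)

open Pool.Agent.TH826.UH

open Pool.Agent.TH826.MH

variable {K : Type*} [Field K] {σ : K →+* ℂ} {lam : K} {r : Fin 2 → ℕ}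
  {a : ∀ k, Fin (r k + 1) → K}

/-- the loop `(X, Y)` on the curve -/
noncomputable def loop {X Y : ℝ → ℂ} (hX : ContDiff ℝ 2 X) (hY : ContDiff ℝ 2 Y)
    (hX1 : ∀ s, X (s + 1) = X s) (hY1 : ∀ s, Y (s + 1) = Y s)
    (h : ∀ s, σ lam * ((∏ i, (X s - σ (a 0 i))) * ∏ j, (Y s - σ (a 1 j))) = 1) :
    Torus (CRing lam a) 1 :=
  mkT (σ := σ) (fun θ : Fin 1 → ℝ => ![X (θ 0), Y (θ 0)])
    (by
      rw [contDiff_pi]
      intro k
      fin_cases k
      · exact hX.comp (contDiff_apply ℝ ℝ 0)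
      · exact hY.comp (contDiff_apply ℝ ℝ 0))
    (by
      intro θ i
      have h0 : (θ + Pi.single i 1 : Fin 1 → ℝ) 0 = θ 0 + 1 := by
        rw [Pi.add_apply, Subsingleton.elim i 0, Pi.single_eq_same]
      simp only [h0, hX1, hY1])
    (by
      intro θ
      rw [Fin.prod_univ_two]
      exact h (θ 0))

theorem loop_e {X Y : ℝ → ℂ} (hX : ContDiff ℝ 2 X) (hY : ContDiff ℝ 2 Y)
    (hX1 : ∀ s, X (s + 1) = X s) (hY1 : ∀ s, Y (s + 1) = Y s)
    (h : ∀ s, σ lam * ((∏ i, (X s - σ (a 0 i))) * ∏ j, (Y s - σ (a 1 j))) = 1)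
    (θ : Fin 1 → ℝ) (x : K) :
    (loop hX hY hX1 hY1 h).e θ (fpol lam a (MvPolynomial.C x)) = σ x := by
  unfold loop mkT
  simp only
  rw [evX_fpol]
  simp

theorem loop_reg {X Y : ℝ → ℂ} (hX : ContDiff ℝ 2 X) (hY : ContDiff ℝ 2 Y)
    (hX1 : ∀ s, X (s + 1) = X s) (hY1 : ∀ s, Y (s + 1) = Y s)
    (h : ∀ s, σ lam * ((∏ i, (X s - σ (a 0 i))) * ∏ j, (Y s - σ (a 1 j))) = 1)
    (i : ∀ k, Fin (r k)) :
    (loop hX hY hX1 hY1 h).reg (symb (ent lam a i)) =
      pr (fun s => X s - σ (a 0 (i 0).castSucc)) (fun s => Y s - σ (a 1 (i 1).castSucc)) -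
      pr (fun s => X s - σ (a 0 (i 0).castSucc)) (fun s => Y s - σ (a 1 (i 1).succ)) -
      (pr (fun s => X s - σ (a 0 (i 0).succ)) (fun s => Y s - σ (a 1 (i 1).castSucc)) -
      pr (fun s => X s - σ (a 0 (i 0).succ)) (fun s => Y s - σ (a 1 (i 1).succ))) := by
  have hne : ∀ s, (∏ i, (X s - σ (a 0 i))) ≠ 0 ∧ (∏ j, (Y s - σ (a 1 j))) ≠ 0 := by
    intro s
    have h1 := h s
    constructor
    · intro h0
      rw [h0, zero_mul, mul_zero] at h1
      exact zero_ne_one h1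
    · intro h0
      rw [h0, mul_zero, mul_zero] at h1
      exact zero_ne_one h1
  have nX : ∀ p, NZ fun s => X s - σ (a 0 p) := fun p =>
    ⟨hX.sub contDiff_const, fun s => (Finset.prod_ne_zero_iff.1 (hne s).1) p (Finset.mem_univ p)⟩
  have nY : ∀ p, NZ fun s => Y s - σ (a 1 p) := fun p =>
    ⟨hY.sub contDiff_const, fun s => (Finset.prod_ne_zero_iff.1 (hne s).2) p (Finset.mem_univ p)⟩
  rw [← pr_div (nX _) (nY _) (nY _), ← pr_div (nX _) (nY _) (nY _),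
    ← pr_div_left (nX _) (nX _) ((nY _).div (nY _)),
    ← pairing_eq_pr ((nX _).div (nX _)) ((nY _).div (nY _)), Torus.reg_symb]
  unfold Torus.pair
  congr 1
  funext k θ
  unfold loop
  rw [mkT_ent]
  fin_cases k
  · rfl
  · rfl

theorem exists_loops (hsep : ∀ k i j, i ≠ j → 2 ≤ ‖σ (a k i) - σ (a k j)‖)
    (hlam : 2 ≤ ‖σ lam‖) :
    ∃ Γ : (∀ k, Fin (r k)) → Torus (CRing lam a) 1,
      (∀ t θ (x : K), (Γ t).e θ (fpol lam a (MvPolynomial.C x)) = σ x) ∧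
      (Matrix.of fun t i : (∀ k, Fin (r k)) => (Γ t).reg (symb (ent lam a i))).det ≠ 0 := by
  classical
  by_cases h0 : r 0 = 0
  · have : IsEmpty (∀ k, Fin (r k)) := ⟨fun i => by
      have := (i 0).2
      omega⟩
    exact ⟨fun t => isEmptyElim t, fun t => isEmptyElim t, by
      rw [Matrix.det_isEmpty]
      exact one_ne_zero⟩
  by_cases h1 : r 1 = 0
  · have : IsEmpty (∀ k, Fin (r k)) := ⟨fun i => by
      have := (i 1).2
      omega⟩
    exact ⟨fun t => isEmptyElim t, fun t => isEmptyElim t, by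
      rw [Matrix.det_isEmpty]
      exact one_ne_zero⟩
  have hm : 1 ≤ r 0 := Nat.one_le_iff_ne_zero.2 h0
  have hn : 1 ≤ r 1 := Nat.one_le_iff_ne_zero.2 h1
  set α : Fin (r 0 + 1) → ℂ := fun i => σ (a 0 i) with hα
  set β : Fin (r 1 + 1) → ℂ := fun i => σ (a 1 i) with hβ
  have hα2 : ∀ i j, i ≠ j → 2 ≤ ‖α i - α j‖ := hsep 0
  have hβ2 : ∀ i j, i ≠ j → 2 ≤ ‖β i - β j‖ := hsep 1
  choose Y hYcd hYper hY1 hY2 hY3 using exists_Y hα2 hβ2 hm hn hlam
  have hdet := nonsing hα2 hβ2 hm hn hlam hYcd hYper hY1 hY2 hY3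
  obtain ⟨e, he⟩ := exists_columns (r := r)
    (fun p q => pr (ff α q.1 p.1) (fun s => Y q.1 q.2 s - β p.2)) hdet
  have hX : ∀ k, ContDiff ℝ 2 fun s => α k + circ (1 / 2) s := fun k =>
    contDiff_const.add (contDiff_circ _)
  have hX1 : ∀ k s, α k + circ (1 / 2) (s + 1) = α k + circ (1 / 2) s := fun k s => by
    rw [circ_add_one]
  have hXf : ∀ k i s, α k + circ (1 / 2) s - α i = ff α k i s := fun k i s => by
    unfold ff
    ring
  have hcurve : ∀ k l s, σ lam * ((∏ i, (α k + circ (1 / 2) s - σ (a 0 i))) *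
      ∏ j, (Y k l s - σ (a 1 j))) = 1 := by
    intro k l s
    have h2 : ∏ j, (Y k l s - σ (a 1 j)) = ww (σ lam) α k s := hY1 k l s
    have h3 : ∏ i, (α k + circ (1 / 2) s - σ (a 0 i)) = ∏ i, ff α k i s :=
      Finset.prod_congr rfl fun i _ => hXf k i s
    rw [h2, h3, ← mul_assoc]
    exact mul_inv_cancel₀ ((nz_den hα2 hlam k).ne_zero s)
  refine ⟨fun t => loop (hX (e t).1) (hYcd (e t).1 (e t).2) (hX1 (e t).1)
    (hYper (e t).1 (e t).2) (hcurve (e t).1 (e t).2), fun t θ x => loop_e _ _ _ _ _ θ x, ?_⟩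
  have hM : (Matrix.of fun t i : (∀ k, Fin (r k)) =>
      (loop (hX (e t).1) (hYcd (e t).1 (e t).2) (hX1 (e t).1)
        (hYper (e t).1 (e t).2) (hcurve (e t).1 (e t).2)).reg (symb (ent lam a i))) =
      Matrix.of fun t i : (∀ k : Fin 2, Fin (r k)) =>
        pr (ff α (e t).1 (i 0).castSucc) (fun s => Y (e t).1 (e t).2 s - β (i 1).castSucc) -
        pr (ff α (e t).1 (i 0).castSucc) (fun s => Y (e t).1 (e t).2 s - β (i 1).succ) -
        (pr (ff α (e t).1 (i 0).succ) (fun s => Y (e t).1 (e t).2 s - β (i 1).castSucc) -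
        pr (ff α (e t).1 (i 0).succ) (fun s => Y (e t).1 (e t).2 s - β (i 1).succ)) := by
    ext t i
    rw [Matrix.of_apply, Matrix.of_apply, loop_reg]
    have hf : ∀ k i, (fun s => α k + circ (1 / 2) s - σ (a 0 i)) = ff α k i := fun k i =>
      funext fun s => hXf k i s
    simp only [hf]
    rfl
  rw [hM]
  exact he

end Pool.Agent.TH826.UB
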