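import Mathlib
set_option autoImplicit false

/-!
Linear algebra: selecting columns of a matrix, differences of the rows of a nonsingular matrix.
-/

namespace Pool.Agent.TH826.UB

open Matrix

/-- If `W U` is nonsingular, then some square submatrix of `W` is nonsingular. -/
theorem exists_submatrix {ι κ : Type*} [Fintype ι] [DecidableEq ι] [Fintype κ] [DecidableEq κ]
    (W : Matrix ι κ ℝ) (U : Matrix κ ι ℝ) (h : (W * U).det ≠ 0) :
    ∃ e : ι → κ, (W.submatrix id e).det ≠ 0 := by
  by_contra hcon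
  push Not at hcon
  apply h
  rw [← Matrix.det_transpose]
  have e : (W * U)ᵀ = fun i => ∑ k, U k i • Wᵀ k := by
    funext i
    ext j
    rw [Matrix.transpose_apply, Matrix.mul_apply, Finset.sum_apply]
    refine Finset.sum_congr rfl fun k _ => ?_
    rw [Pi.smul_apply, Matrix.transpose_apply, smul_eq_mul, mul_comm]
  have h1 : ((W * U)ᵀ).det = Matrix.detRowAlternating (fun i => ∑ k, U k i • Wᵀ k) := by
    rw [← e]
    rfl
  rw [h1]
  have h2 := (Matrix.detRowAlternating (n := ι) (R := ℝ)).toMultilinearMap.map_sum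
    (fun i k => U k i • Wᵀ k)
  have h3 : Matrix.detRowAlternating (fun i => ∑ k, U k i • Wᵀ k) =
      ∑ r : ι → κ, Matrix.detRowAlternating (fun i => U (r i) i • Wᵀ (r i)) := h2
  rw [h3]
  refine Finset.sum_eq_zero fun r _ => ?_
  have h4 := (Matrix.detRowAlternating (n := ι) (R := ℝ)).toMultilinearMap.map_smul_univ
    (fun i => U (r i) i) (fun i => Wᵀ (r i))
  have h5 : Matrix.detRowAlternating (fun i => U (r i) i • Wᵀ (r i)) =
      (∏ i, U (r i) i) • Matrix.detRowAlternating (fun i => Wᵀ (r i)) := h4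
  rw [h5]
  have h6 : Matrix.detRowAlternating (fun i => Wᵀ (r i)) = ((W.submatrix id r)ᵀ).det := rfl
  rw [h6, Matrix.det_transpose, hcon r, smul_zero]

/-- the difference of two consecutive unit vectors -/
def dd {m : ℕ} (i : Fin m) (k : Fin (m + 1)) : ℝ :=
  (if k = i.castSucc then 1 else 0) - if k = i.succ then 1 else 0

theorem sum_dd {m : ℕ} (i : Fin m) (f : Fin (m + 1) → ℝ) :
    ∑ k, dd i k * f k = f i.castSucc - f i.succ := by
  simp [dd, sub_mul, Finset.sum_sub_distrib]

theorem sum_dd_le {m : ℕ} (i j : Fin m) :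
    ∑ k : Fin (m + 1), dd i k * (if (k : ℕ) ≤ j then 1 else 0) = if i = j then 1 else 0 := by
  rw [sum_dd]
  rcases lt_trichotomy i j with h | h | h
  · have h1 : (i : ℕ) < j := h
    rw [if_pos (by simpa using h1.le), if_pos (by simpa using h1), if_neg h.ne, sub_self]
  · subst h
    simp
  · have h1 : (j : ℕ) < i := h
    rw [if_neg (by simpa using h1), if_neg (by simpa using h1.le), if_neg h.ne', sub_self]

/-- A matrix with rows and columns indexed by the grid: if it is nonsingular, then for a suitable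
choice of columns the matrix of the mixed second differences of the rows is nonsingular. -/
theorem exists_columns {r : Fin 2 → ℕ} (R : Fin (r 0 + 1) × Fin (r 1 + 1) →
      Fin (r 0 + 1) × Fin (r 1 + 1) → ℝ) (hR : (Matrix.of R).det ≠ 0) :
    ∃ e : (∀ k : Fin 2, Fin (r k)) → Fin (r 0 + 1) × Fin (r 1 + 1),
      (Matrix.of fun t i : (∀ k : Fin 2, Fin (r k)) =>
        R ((i 0).castSucc, (i 1).castSucc) (e t) - R ((i 0).castSucc, (i 1).succ) (e t) -
        (R ((i 0).succ, (i 1).castSucc) (e t) - R ((i 0).succ, (i 1).succ) (e t))).det ≠ 0 := by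
  set D : Matrix (∀ k : Fin 2, Fin (r k)) (Fin (r 0 + 1) × Fin (r 1 + 1)) ℝ :=
    fun i p => dd (i 0) p.1 * dd (i 1) p.2 with hD
  set T : Matrix (Fin (r 0 + 1) × Fin (r 1 + 1)) (∀ k : Fin 2, Fin (r k)) ℝ :=
    fun p i => (if (p.1 : ℕ) ≤ i 0 then 1 else 0) * (if (p.2 : ℕ) ≤ i 1 then 1 else 0) with hT
  have hDT : D * T = 1 := by
    ext i j
    rw [Matrix.mul_apply, Fintype.sum_prod_type]
    have h1 : ∀ p q, D i (p, q) * T (p, q) j =
        (dd (i 0) p * (if (p : ℕ) ≤ j 0 then 1 else 0)) *
          (dd (i 1) q * (if (q : ℕ) ≤ j 1 then 1 else 0)) := by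
      intro p q
      simp only [hD, hT]
      ring
    simp only [h1]
    rw [← Finset.sum_mul_sum, sum_dd_le, sum_dd_le]
    by_cases hij : i = j
    · subst hij
      simp
    · rw [Matrix.one_apply_ne hij]
      have h2 : ¬ (i 0 = j 0 ∧ i 1 = j 1) := by
        rintro ⟨h3, h4⟩
        apply hij
        funext k
        fin_cases k
        · exact h3
        · exact h4
      by_cases h3 : i 0 = j 0
      · rw [if_neg fun h4 => h2 ⟨h3, h4⟩, mul_zero]
      · rw [if_neg h3, zero_mul]
  have hunit : IsUnit (Matrix.of R).det := isUnit_iff_ne_zero.2 hR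
  obtain ⟨e, he⟩ := exists_submatrix (D * Matrix.of R) ((Matrix.of R)⁻¹ * T) (by
    rw [Matrix.mul_assoc, ← Matrix.mul_assoc (Matrix.of R), Matrix.mul_nonsing_inv _ hunit,
      Matrix.one_mul, hDT, Matrix.det_one]
    exact one_ne_zero)
  refine ⟨e, ?_⟩
  rw [← Matrix.det_transpose] at he
  have h1 : ((D * Matrix.of R).submatrix id e)ᵀ = Matrix.of fun t i : (∀ k : Fin 2, Fin (r k)) =>
        R ((i 0).castSucc, (i 1).castSucc) (e t) - R ((i 0).castSucc, (i 1).succ) (e t) -
        (R ((i 0).succ, (i 1).castSucc) (e t) - R ((i 0).succ, (i 1).succ) (e t)) := by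
    ext t i
    rw [Matrix.transpose_apply, Matrix.submatrix_apply, Matrix.mul_apply, Matrix.of_apply,
      Fintype.sum_prod_type]
    have h2 : ∀ p, ∑ q, D (id i) (p, q) * Matrix.of R (p, q) (e t) =
        dd (i 0) p * (R (p, (i 1).castSucc) (e t) - R (p, (i 1).succ) (e t)) := by
      intro p
      rw [← sum_dd (i 1) (fun q => R (p, q) (e t)), Finset.mul_sum]
      refine Finset.sum_congr rfl fun q _ => ?_
      simp only [hD, Matrix.of_apply, id_eq]
      ring
    simp only [h2]
    rw [sum_dd (i 0) (fun p => R (p, (i 1).castSucc) (e t) - R (p, (i 1).succ) (e t))]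
  rw [h1] at he
  exact he

/-- Diagonal dominance: constant positive row sums, and the off-diagonal entries which are not
negative are small. -/
theorem det_ne_zero_of_rows {m n : ℕ} (R : Fin (m + 1) × Fin (n + 1) →
      Fin (m + 1) × Fin (n + 1) → ℝ) {κ B : ℝ} (hκ : 2 * (m * n * B) < κ)
    (hrow : ∀ p, ∑ q, R p q = κ)
    (hneg : ∀ p q, p ≠ q → (p.1 = q.1 ∨ p.2 = q.2) → R p q ≤ 0)
    (hB : ∀ p q, p.1 ≠ q.1 → p.2 ≠ q.2 → |R p q| ≤ B) : (Matrix.of R).det ≠ 0 := by
  classical
  refine det_ne_zero_of_sum_row_lt_diag fun p => ?_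
  simp only [Matrix.of_apply, Real.norm_eq_abs]
  set c : Fin (m + 1) × Fin (n + 1) → ℝ := fun q =>
    (if p.1 ≠ q.1 then 1 else 0) * (if p.2 ≠ q.2 then 1 else 0) with hc
  have h1 : ∀ q ∈ Finset.univ.erase p, |R p q| ≤ -R p q + 2 * B * c q := by
    intro q hq
    have hpq : p ≠ q := (Finset.ne_of_mem_erase hq).symm
    simp only [hc]
    by_cases h2 : p.1 = q.1
    · rw [if_neg (not_not.2 h2), zero_mul, mul_zero, add_zero,
        abs_of_nonpos (hneg p q hpq (Or.inl h2))]
    · by_cases h3 : p.2 = q.2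
      · rw [if_neg (not_not.2 h3), mul_zero, mul_zero, add_zero,
          abs_of_nonpos (hneg p q hpq (Or.inr h3))]
      · rw [if_pos h2, if_pos h3, mul_one, mul_one]
        have h4 := hB p q h2 h3
        have h5 := abs_le.1 h4
        rcases le_total (R p q) 0 with h6 | h6
        · rw [abs_of_nonpos h6]
          linarith [abs_nonneg (R p q)]
        · rw [abs_of_nonneg h6]
          linarith
  have hcard : ∑ q, c q = m * n := by
    have h2 : ∀ {k : ℕ} (x : Fin (k + 1)), ∑ y : Fin (k + 1), (if x ≠ y then (1 : ℝ) else 0) = k := by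
      intro k x
      have h3 : ∀ y : Fin (k + 1), (if x ≠ y then (1 : ℝ) else 0) = 1 - if x = y then 1 else 0 := by
        intro y
        by_cases h : x = y <;> simp [h]
      simp only [h3, Finset.sum_sub_distrib]
      simp
    have h4 := Finset.sum_mul_sum (Finset.univ : Finset (Fin (m + 1)))
      (Finset.univ : Finset (Fin (n + 1))) (fun x => if p.1 ≠ x then (1 : ℝ) else 0)
      (fun y => if p.2 ≠ y then (1 : ℝ) else 0)
    rw [h2, h2] at h4
    rw [h4, Fintype.sum_prod_type]
  have hc0 : ∀ q, 0 ≤ c q := by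
    intro q
    simp only [hc]
    split_ifs <;> norm_num
  have hcp : c p = 0 := by simp [hc]
  have hcard' : ∑ q ∈ Finset.univ.erase p, c q = m * n := by
    rw [← hcard, ← Finset.add_sum_erase _ _ (Finset.mem_univ p), hcp, zero_add]
  have hsum : ∑ q ∈ Finset.univ.erase p, R p q = κ - R p p := by
    rw [← hrow p, ← Finset.add_sum_erase _ _ (Finset.mem_univ p)]
    ring
  calc ∑ q ∈ Finset.univ.erase p, |R p q| ≤ ∑ q ∈ Finset.univ.erase p, (-R p q + 2 * B * c q) :=
        Finset.sum_le_sum h1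
    _ = -(κ - R p p) + 2 * B * (m * n) := by
        rw [Finset.sum_add_distrib, Finset.sum_neg_distrib, hsum, ← Finset.mul_sum, hcard']
    _ < R p p := by linarith
    _ ≤ |R p p| := le_abs_self _

end Pool.Agent.TH826.UB
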