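import Pool.Agent.TH826.UB.Br
import Pool.Agent.TH826.UB.Mat
set_option autoImplicit false

/-!
The regulators of the symbols `{x - α_i, y - β_j}` on the `(m + 1) (n + 1)` loops.
-/

namespace Pool.Agent.TH826.UB

open Polynomial Metric

open Pool.Agent.TH826.MK (circ norm_circ contDiff_circ circ_add_one hasDerivAt_circ wd)

open Pool.Agent.TH826.UH

variable {m n : ℕ} {α : Fin (m + 1) → ℂ} {β : Fin (n + 1) → ℂ} {μ : ℂ}

/-- the bound for the distances of `y` from `β_l` -/
noncomputable def ep (m n : ℕ) (μ : ℂ) : ℝ := om m μ * (2 / 3) ^ n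

theorem ep_nonneg (m n : ℕ) (μ : ℂ) : 0 ≤ ep m n μ := mul_nonneg (om_nonneg m μ) (by positivity)

theorem ep_le (hm : 1 ≤ m) (hn : 1 ≤ n) (hμ : 2 ≤ ‖μ‖) : ep m n μ ≤ 4 / 9 := by
  unfold ep
  have h1 := om_le hm hμ
  have h2 : (2 / 3 : ℝ) ^ n ≤ 2 / 3 := by
    calc (2 / 3 : ℝ) ^ n ≤ (2 / 3) ^ 1 := pow_le_pow_of_le_one (by norm_num) (by norm_num) hn
      _ = 2 / 3 := pow_one _
  calc om m μ * (2 / 3) ^ n ≤ 2 / 3 * (2 / 3) :=
        mul_le_mul h1 h2 (by positivity) (by norm_num)
    _ = 4 / 9 := by norm_num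

theorem nonsing (hα : ∀ i j, i ≠ j → 2 ≤ ‖α i - α j‖) (hβ : ∀ i j, i ≠ j → 2 ≤ ‖β i - β j‖)
    (hm : 1 ≤ m) (hn : 1 ≤ n) (hμ : 2 ≤ ‖μ‖) {Y : Fin (m + 1) → Fin (n + 1) → ℝ → ℂ}
    (hYcd : ∀ k l, ContDiff ℝ 2 (Y k l)) (hYper : ∀ k l s, Y k l (s + 1) = Y k l s)
    (hY1 : ∀ k l s, ∏ j, (Y k l s - β j) = ww μ α k s)
    (hY2 : ∀ k j s, ∏ l, (β j - Y k l s) = -ww μ α k s)
    (hY3 : ∀ k l s, ‖Y k l s - β l‖ ≤ om m μ * (2 / 3) ^ n) :
    (Matrix.of fun p q : Fin (m + 1) × Fin (n + 1) =>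
      pr (ff α q.1 p.1) (fun s => Y q.1 q.2 s - β p.2)).det ≠ 0 := by
  classical
  have hpi := Real.pi_pos
  have hμ0 : 0 < ‖μ‖ := by linarith
  have hep := ep_le hm hn hμ
  have hep0 := ep_nonneg m n μ
  have hY3' : ∀ k l s, ‖Y k l s - β l‖ ≤ ep m n μ := hY3
  have hYne : ∀ k l j s, Y k l s - β j ≠ 0 := by
    intro k l j s h
    have h1 := hY1 k l s
    rw [Finset.prod_eq_zero (Finset.mem_univ j) h] at h1
    exact (nz_ww hα hμ k).ne_zero s h1.symm
  have nY : ∀ k l j, NZ fun s => Y k l s - β j := fun k l j =>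
    ⟨(hYcd k l).sub contDiff_const, hYne k l j⟩
  have nY' : ∀ k l j, NZ fun s => β j - Y k l s := fun k l j =>
    ⟨contDiff_const.sub (hYcd k l), fun s h => hYne k l j s (by linear_combination -h)⟩
  -- the two sum rules
  have sum1 : ∀ i j k, ∑ l, pr (ff α k i) (fun s => Y k l s - β j) = pr (ff α k i) (ww μ α k) := by
    intro i j k
    have h1 : ∀ l, pr (ff α k i) (fun s => Y k l s - β j) =
        pr (ff α k i) (fun s => β j - Y k l s) := by
      intro l
      rw [← pr_neg]
      congr 1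
      funext t
      ring
    simp only [h1]
    rw [← pr_prod Finset.univ (nz_ff hα k i) (fun l => nY' k l j), ← pr_neg]
    congr 1
    funext t
    rw [hY2, neg_neg]
  have sum2 : ∀ i k l, ∑ j, pr (ff α k i) (fun s => Y k l s - β j) = pr (ff α k i) (ww μ α k) := by
    intro i k l
    rw [← pr_prod Finset.univ (nz_ff hα k i) (fun j => nY k l j)]
    congr 1
    funext t
    rw [hY1]
  -- far pairs
  have hfar : ∀ i k, i ≠ k → ∀ l j, l ≠ j →
      |pr (ff α k i) (fun s => Y k l s - β j)| ≤ Real.pi / 2 * ep m n μ := by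
    intro i k hik l j hlj
    have hb := hβ l j hlj
    have ha := hα i k hik
    have e1 : ff α k i = fun s => (α k - α i) + circ (1 / 2) s := by
      funext s
      unfold ff
      ring
    have e2 : (fun s => Y k l s - β j) = fun s => (β l - β j) + (Y k l s - β l) := by
      funext s
      ring
    rw [e1, e2]
    have ha' : 2 ≤ ‖α k - α i‖ := by rwa [norm_sub_rev]
    have h1 := abs_pr_le (X := circ (1 / 2)) (Y := fun s => Y k l s - β l) (α := α k - α i)
      (β := β l - β j) (A := 2 * Real.pi / 3) (B := 3 / 4 * ep m n μ) (contDiff_circ _)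
      ((hYcd k l).sub contDiff_const) (circ_add_one _) (fun s => by simp only [hYper])
      (fun s => by rw [norm_circ (by norm_num)]; linarith)
      (fun s => by have := hY3' k l s; linarith) (fun s => ?_) (fun s => ?_)
    · refine h1.trans (le_of_eq ?_)
      ring
    · have h2 : HasDerivAt (fun s => α k - α i + circ (1 / 2) s)
          (2 * Real.pi * Complex.I * circ (1 / 2) s) s := (hasDerivAt_circ _ s).const_add _
      rw [h2.deriv, norm_div]
      have h3 : ‖2 * (Real.pi : ℂ) * Complex.I * circ (1 / 2) s‖ = Real.pi := by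
        rw [norm_mul, norm_mul, norm_mul, norm_circ (by norm_num), Complex.norm_I,
          Complex.norm_real, Real.norm_of_nonneg hpi.le, Complex.norm_ofNat]
        ring
      rw [h3]
      have h4 : 3 / 2 ≤ ‖α k - α i + circ (1 / 2) s‖ := by
        have h5 := norm_ff_ge hα hik s
        rwa [show ff α k i s = α k - α i + circ (1 / 2) s from congrFun e1 s] at h5
      calc Real.pi / ‖α k - α i + circ (1 / 2) s‖ ≤ Real.pi / (3 / 2) :=
            div_le_div_of_nonneg_left hpi.le (by norm_num) h4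
        _ = 2 * Real.pi / 3 := by ring
    · have h2 : ‖(Y k l s - β l) / (β l - β j)‖ ≤ ep m n μ / 2 := by
        rw [norm_div]
        exact div_le_div₀ hep0 (hY3' k l s) (by norm_num) hb
      have h3 := Complex.norm_log_one_add_half_le_self (z := (Y k l s - β l) / (β l - β j))
        (h2.trans (by linarith))
      calc _ ≤ 3 / 2 * ‖(Y k l s - β l) / (β l - β j)‖ := h3
        _ ≤ 3 / 2 * (ep m n μ / 2) := mul_le_mul_of_nonneg_left h2 (by norm_num)
        _ = 3 / 4 * ep m n μ := by ring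
  -- the number of pairs times the bound
  have hlog2 : (0.6931471803 : ℝ) < Real.log 2 := Real.log_two_gt_d9
  have hlogμ : Real.log 2 ≤ Real.log ‖μ‖ := Real.log_le_log (by norm_num) hμ
  have hnum : (m : ℝ) * n * (Real.pi / 2 * ep m n μ) ≤ Real.pi / 2 := by
    have h1 := nat_mul_pow_le m
    have h2 := nat_mul_pow_le n
    have h3 : 2 / ‖μ‖ ≤ 1 := (div_le_one hμ0).2 hμ
    have e : (m : ℝ) * n * (Real.pi / 2 * ep m n μ) =
        Real.pi / 2 * (2 / ‖μ‖ * ((m * (2 / 3) ^ m) * (n * (2 / 3) ^ n))) := by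
      unfold ep om
      ring
    rw [e]
    have h4 : (m * (2 / 3 : ℝ) ^ m) * (n * (2 / 3) ^ n) ≤ 1 * 1 :=
      mul_le_mul h1 h2 (by positivity) zero_le_one
    have h5 : 2 / ‖μ‖ * ((m * (2 / 3 : ℝ) ^ m) * (n * (2 / 3) ^ n)) ≤ 1 * (1 * 1) :=
      mul_le_mul h3 h4 (by positivity) zero_le_one
    calc Real.pi / 2 * (2 / ‖μ‖ * ((m * (2 / 3 : ℝ) ^ m) * (n * (2 / 3) ^ n))) ≤
          Real.pi / 2 * (1 * (1 * 1)) := mul_le_mul_of_nonneg_left h5 (by positivity)
      _ = Real.pi / 2 := by ring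
  have hnum2 : (n : ℝ) * (Real.pi / 2 * ep m n μ) ≤ Real.pi / 3 := by
    have h1 := om_le hm hμ
    have h2 := nat_mul_pow_le n
    have e : (n : ℝ) * (Real.pi / 2 * ep m n μ) =
        Real.pi / 2 * (om m μ * (n * (2 / 3) ^ n)) := by
      unfold ep
      ring
    rw [e]
    have h5 : om m μ * (n * (2 / 3 : ℝ) ^ n) ≤ 2 / 3 * 1 :=
      mul_le_mul h1 h2 (by positivity) (by norm_num)
    calc Real.pi / 2 * (om m μ * (n * (2 / 3 : ℝ) ^ n)) ≤ Real.pi / 2 * (2 / 3 * 1) :=
          mul_le_mul_of_nonneg_left h5 (by positivity)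
      _ = Real.pi / 3 := by ring
  refine det_ne_zero_of_rows _ (κ := 2 * Real.pi * Real.log ‖μ‖)
    (B := Real.pi / 2 * ep m n μ) ?_ ?_ ?_ ?_
  · nlinarith
  · rintro ⟨i, j⟩
    rw [Fintype.sum_prod_type]
    simp only [sum1, pr_ff_ww hα hμ]
    rw [← Finset.mul_sum]
    congr 1
    rw [Finset.sum_add_distrib, Finset.sum_sub_distrib]
    simp
  · rintro ⟨i, j⟩ ⟨k, l⟩ hne h
    simp only at h ⊢
    rcases h with h | h
    · subst h
      have hlj : l ≠ j := fun h => hne (by rw [h])
      have hb := hβ l j hlj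
      have e1 : ff α i i = circ (1 / 2) := by
        funext s
        unfold ff
        ring
      have e2 : (fun s => Y i l s - β j) = fun s => (β l - β j) + (Y i l s - β l) := by
        funext s
        ring
      rw [e1, e2]
      refine pr_circ_disc_neg (by norm_num) ((hYcd i l).sub contDiff_const)
        (fun s => by simp only [hYper]) (fun s => ?_) fun s => ?_
      · have := hY3' i l s
        linarith
      · have h1 := hY3' i l s
        have h2 : ‖β l - β j‖ ≤ ‖β l - β j + (Y i l s - β l)‖ + ‖Y i l s - β l‖ := by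
          have : β l - β j = (β l - β j + (Y i l s - β l)) - (Y i l s - β l) := by ring
          calc ‖β l - β j‖ = ‖(β l - β j + (Y i l s - β l)) - (Y i l s - β l)‖ := by rw [← this]
            _ ≤ _ := norm_sub_le _ _
        linarith
    · subst h
      have hik : i ≠ k := fun h => hne (by rw [h])
      have h1 := sum2 i k j
      rw [pr_ff_ww hα hμ, if_neg hik, if_neg hik, ← Finset.add_sum_erase _ _ (Finset.mem_univ j)]
        at h1
      have h2 : -((n : ℝ) * (Real.pi / 2 * ep m n μ)) ≤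
          ∑ j' ∈ Finset.univ.erase j, pr (ff α k i) (fun s => Y k j s - β j') := by
        have h3 : ∑ _j' ∈ Finset.univ.erase j, -(Real.pi / 2 * ep m n μ) ≤
            ∑ j' ∈ Finset.univ.erase j, pr (ff α k i) (fun s => Y k j s - β j') := by
          refine Finset.sum_le_sum fun j' hj' => ?_
          exact (abs_le.1 (hfar i k hik j j' (Finset.ne_of_mem_erase hj').symm)).1
        refine le_trans (le_of_eq ?_) h3
        rw [Finset.sum_const, Finset.card_erase_of_mem (Finset.mem_univ j), Finset.card_univ,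
          Fintype.card_fin, nsmul_eq_mul, Nat.add_sub_cancel]
        ring
      have h4 : Real.log 2 ≤ Real.log ‖α i - α k‖ := Real.log_le_log (by norm_num) (hα i k hik)
      nlinarith
  · rintro ⟨i, j⟩ ⟨k, l⟩ h1 h2
    exact hfar i k h1 l j (Ne.symm h2)

end Pool.Agent.TH826.UB
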